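import Pool.Agent.H.MP_e16c79_al.AL.Fin

/-!
# MP_e16c79_al: quotients of subalgebras of algebras of degree three
-/

set_option autoImplicit false

namespace Pool.Agent.H.MP_e16c79_al.TQ

open Finset AL

/-- `P` is a subalgebra, `K` an ideal of `P`, both saturated, with `x ^ n ∈ K` for `x ∈ P` -/
structure TD {F B : Type*} [CommRing F] [NonUnitalNonAssocCommRing B] [Module F B]
    (n : ℕ) (P K : Submodule F B) : Prop where
  le : K ≤ P
  pp : ∀ x ∈ P, ∀ y ∈ P, x * y ∈ P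
  kp : ∀ x ∈ K, ∀ y ∈ P, x * y ∈ K
  nil : ∀ x ∈ P, pw x (n - 1) ∈ K
  sp : ∀ x : B, (2 * n.factorial) • x ∈ P → x ∈ P
  sk : ∀ x : B, (2 * n.factorial) • x ∈ K → x ∈ K

section

variable {F B : Type*} [CommRing F] [NonUnitalNonAssocCommRing B] [Module F B]

theorem TD.dp {n : ℕ} {P K : Submodule F B} (h : TD n P K) {d : ℕ} (hd : d ∣ 2 * n.factorial)
    {x : B} (hx : d • x ∈ P) : x ∈ P := by
  obtain ⟨c, hc⟩ := hd
  refine h.sp x ?_
  rw [hc, mul_comm, mul_smul]
  exact P.toAddSubgroup.nsmul_mem hx c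

theorem TD.dk {n : ℕ} {P K : Submodule F B} (h : TD n P K) {d : ℕ} (hd : d ∣ 2 * n.factorial)
    {x : B} (hx : d • x ∈ K) : x ∈ K := by
  obtain ⟨c, hc⟩ := hd
  refine h.sk x ?_
  rw [hc, mul_comm, mul_smul]
  exact K.toAddSubgroup.nsmul_mem hx c

/-- no scalars in `P` modulo `K` -/
def Star (D : Deg3 F B) (P K : Submodule F B) : Prop := ∀ r : F, r • D.e ∈ P → r • D.e ∈ K

/-- the form `S(k, s)` -/
def mu (D : Deg3 F B) (k s : B) : F := D.T k * D.T s - D.T (k * s)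

/-- the ideal of the traces of the elements of `K` -/
def tr (D : Deg3 F B) (K : Submodule F B) : Ideal F := K.map D.T

theorem mem_tr {D : Deg3 F B} {K : Submodule F B} {a : F} :
    a ∈ tr D K ↔ ∃ k ∈ K, D.T k = a := Submodule.mem_map

end

end Pool.Agent.H.MP_e16c79_al.TQ
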