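import Pool.Agent.H.MP_e16c79_al.TQ.Defs

/-!
# MP_e16c79_al: the action of the traces of an ideal
-/

set_option autoImplicit false

namespace Pool.Agent.H.MP_e16c79_al.TQ

open Finset AL

variable {F B : Type*} [CommRing F] [NonUnitalNonAssocCommRing B] [Module F B] (D : Deg3 F B)

theorem cub (b : B) : ∃ c : F, (6 : F) • (b * (b * b)) - (6 * D.T b) • (b * b) +
    (3 * (D.T b ^ 2 - D.T (b * b))) • b - c • D.e = 0 := ⟨_, D.cubic b⟩

/-- the cubic equation, linear part -/
theorem lin0 (s k : B) : ∃ c : F, (12 : F) • (k * (s * s) + s * (s * k) + s * (s * k))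
    - (12 * D.T k) • (s * s) - (24 * D.T s) • (s * k) + (12 * mu D k s) • s
    + (6 * (D.T s ^ 2 - D.T (s * s))) • k - c • D.e = 0 := by
  obtain ⟨c1, h1⟩ := cub D (s + k)
  obtain ⟨c2, h2⟩ := cub D (s - k)
  obtain ⟨c3, h3⟩ := cub D k
  have e1 : (s + k) * (s + k) = s * s + (s * k + s * k) + k * k := by
    rw [add_mul, mul_add, mul_add, mul_comm k s]
    abel
  have e2 : (s - k) * (s - k) = s * s - (s * k + s * k) + k * k := by
    rw [sub_mul, mul_sub, mul_sub, mul_comm k s]
    abel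
  have e3 : (s + k) * ((s + k) * (s + k)) = s * (s * s) + (s * (s * k) + s * (s * k)) +
      s * (k * k) + k * (s * s) + (k * (s * k) + k * (s * k)) + k * (k * k) := by
    rw [e1]
    simp only [add_mul, mul_add]
    abel
  have e4 : (s - k) * ((s - k) * (s - k)) = s * (s * s) - (s * (s * k) + s * (s * k)) +
      s * (k * k) - k * (s * s) + (k * (s * k) + k * (s * k)) - k * (k * k) := by
    rw [e2]
    simp only [mul_add, sub_mul, mul_sub]
    abel
  rw [e3, e1] at h1
  rw [e4, e2] at h2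
  simp only [map_add, map_sub] at h1 h2
  refine ⟨c1 - c2 - 2 * c3, ?_⟩
  unfold mu
  rw [mul_comm k s]
  linear_combination (norm := module) h1 - h2 - (2 : F) • h3

theorem twelve_dvd {n : ℕ} (hn : 3 ≤ n) : 12 ∣ 2 * n.factorial := by
  have h : (3 : ℕ).factorial ∣ n.factorial := Nat.factorial_dvd_factorial hn
  have h2 : 6 ∣ n.factorial := by simpa [Nat.factorial] using h
  exact Nat.mul_dvd_mul_left 2 h2

theorem two_dvd (n : ℕ) : 2 ∣ 2 * n.factorial := Dvd.intro _ rfl

variable {D} {n : ℕ} {P K : Submodule F B}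

theorem TD.k12 (h : TD n P K) (hn : 3 ≤ n) {x : B} (hx : (12 : F) • x ∈ K) : x ∈ K := by
  refine h.dk (twelve_dvd hn) ?_
  rw [← Nat.cast_smul_eq_nsmul F 12 x]
  exact_mod_cast hx

theorem TD.k2 (h : TD n P K) {x : B} (hx : (2 : F) • x ∈ K) : x ∈ K := by
  refine h.dk (two_dvd n) ?_
  rw [← Nat.cast_smul_eq_nsmul F 2 x]
  exact_mod_cast hx

theorem TD.pk (h : TD n P K) {x y : B} (hx : x ∈ P) (hy : y ∈ K) : x * y ∈ K := by
  rw [mul_comm]
  exact h.kp y hy x hx

/-- (1) -/
theorem TD.lin (h : TD n P K) (hn : 3 ≤ n) (hs : Star D P K) {k s : B} (hk : k ∈ K)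
    (hsP : s ∈ P) : D.T k • (s * s) - mu D k s • s ∈ K := by
  obtain ⟨c, hc⟩ := lin0 D s k
  have k1 : k * (s * s) ∈ K := h.kp k hk _ (h.pp s hsP s hsP)
  have k2 : s * k ∈ K := h.pk hsP hk
  have k3 : s * (s * k) ∈ K := h.pk hsP k2
  have kk : (12 : F) • (k * (s * s) + s * (s * k) + s * (s * k)) - (24 * D.T s) • (s * k) +
      (6 * (D.T s ^ 2 - D.T (s * s))) • k ∈ K :=
    K.add_mem (K.sub_mem (K.smul_mem _ (K.add_mem (K.add_mem k1 k3) k3)) (K.smul_mem _ k2))
      (K.smul_mem _ hk)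
  have pX : D.T k • (s * s) - mu D k s • s ∈ P :=
    P.sub_mem (P.smul_mem _ (h.pp s hsP s hsP)) (P.smul_mem _ hsP)
  have e : c • D.e = ((12 : F) • (k * (s * s) + s * (s * k) + s * (s * k)) -
      (24 * D.T s) • (s * k) + (6 * (D.T s ^ 2 - D.T (s * s))) • k) -
      (12 : F) • (D.T k • (s * s) - mu D k s • s) := by
    linear_combination (norm := module) (-1 : F) • hc
  have hcP : c • D.e ∈ P := by
    rw [e]
    exact P.sub_mem (h.le kk) (P.smul_mem _ pX)
  have hcK := hs c hcP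
  refine h.k12 hn ?_
  have e2 : (12 : F) • (D.T k • (s * s) - mu D k s • s) =
      ((12 : F) • (k * (s * s) + s * (s * k) + s * (s * k)) -
      (24 * D.T s) • (s * k) + (6 * (D.T s ^ 2 - D.T (s * s))) • k) - c • D.e := by
    rw [e]
    abel
  rw [e2]
  exact K.sub_mem kk hcK

theorem mu_add (k s t : B) : mu D k (s + t) = mu D k s + mu D k t := by
  unfold mu
  rw [mul_add, map_add, map_add]
  ring

theorem mu_add_left (k l s : B) : mu D (k + l) s = mu D k s + mu D l s := by
  unfold mu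
  rw [add_mul, map_add, map_add]
  ring

/-- (1), polarised -/
theorem TD.pol (h : TD n P K) (hn : 3 ≤ n) (hs : Star D P K) {k s t : B} (hk : k ∈ K)
    (hsP : s ∈ P) (htP : t ∈ P) :
    (2 : F) • (D.T k • (s * t)) - (mu D k s • t + mu D k t • s) ∈ K := by
  have h1 := h.lin hn hs hk (P.add_mem hsP htP)
  have h2 := h.lin hn hs hk hsP
  have h3 := h.lin hn hs hk htP
  have h4 := K.sub_mem (K.sub_mem h1 h2) h3
  have e : D.T k • ((s + t) * (s + t)) - mu D k (s + t) • (s + t) -
      (D.T k • (s * s) - mu D k s • s) - (D.T k • (t * t) - mu D k t • t) =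
      (2 : F) • (D.T k • (s * t)) - (mu D k s • t + mu D k t • s) := by
    rw [mu_add, add_mul, mul_add, mul_add, mul_comm t s]
    module
  rwa [e] at h4

/-- (2) -/
theorem TD.two (h : TD n P K) (hn : 3 ≤ n) (hs : Star D P K) {k x y t : B} (hk : k ∈ K)
    (hk0 : D.T k = 0) (hx : x ∈ P) (hy : y ∈ P) (ht : t ∈ P) :
    D.T (k * x) • (y * t) ∈ K := by
  have key : ∀ a ∈ P, ∀ b ∈ P, ∀ c ∈ P, D.T (k * a) • (b * c) + D.T (k * b) • (a * c) ∈ K := by
    intro a ha b hb c hc
    have h1 := h.pol hn hs hk ha hb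
    have h2 : D.T (k * a) • b + D.T (k * b) • a ∈ K := by
      have e : (2 : F) • (D.T k • (a * b)) - (mu D k a • b + mu D k b • a) =
          D.T (k * a) • b + D.T (k * b) • a := by
        unfold mu
        rw [hk0]
        module
      rwa [e] at h1
    have h3 := h.kp _ h2 c hc
    rwa [add_mul, D.smul_mul, D.smul_mul] at h3
  have h1 := key x hx y hy t ht
  have h2 := key x hx t ht y hy
  have h3 := key y hy t ht x hx
  refine h.k2 ?_
  have e : (2 : F) • (D.T (k * x) • (y * t)) =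
      (D.T (k * x) • (y * t) + D.T (k * y) • (x * t)) +
      (D.T (k * x) • (t * y) + D.T (k * t) • (x * y)) -
      (D.T (k * y) • (t * x) + D.T (k * t) • (y * x)) := by
    rw [mul_comm t y, mul_comm t x, mul_comm y x]
    module
  rw [e]
  exact K.sub_mem (K.add_mem h1 h2) h3

/-- the ideal of the scalars which kill the products -/
def ann (P K : Submodule F B) : Ideal F where
  carrier := {u | ∀ y ∈ P, ∀ t ∈ P, u • (y * t) ∈ K}
  zero_mem' := by
    intro y _ t _
    rw [zero_smul]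
    exact K.zero_mem
  add_mem' := by
    intro a b ha hb y hy t ht
    rw [add_smul]
    exact K.add_mem (ha y hy t ht) (hb y hy t ht)
  smul_mem' := by
    intro c a ha y hy t ht
    rw [smul_eq_mul, mul_smul]
    exact K.smul_mem _ (ha y hy t ht)

theorem mem_ann {u : F} : u ∈ ann P K ↔ ∀ y ∈ P, ∀ t ∈ P, u • (y * t) ∈ K := Iff.rfl

theorem TD.dd (h : TD n P K) (hn : 3 ≤ n) (hs : Star D P K) {a b x : B} (ha : a ∈ K) (hb : b ∈ K)
    (hx : x ∈ P) : D.T a * mu D b x - D.T b * mu D a x ∈ ann P K := by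
  have h0 : D.T b • a - D.T a • b ∈ K := K.sub_mem (K.smul_mem _ ha) (K.smul_mem _ hb)
  have h1 : D.T (D.T b • a - D.T a • b) = 0 := by
    rw [map_sub, map_smul, map_smul, smul_eq_mul, smul_eq_mul]
    ring
  have h2 : D.T ((D.T b • a - D.T a • b) * x) = D.T a * mu D b x - D.T b * mu D a x := by
    rw [sub_mul, D.smul_mul, D.smul_mul, map_sub, map_smul, map_smul, smul_eq_mul, smul_eq_mul]
    unfold mu
    ring
  rw [← h2]
  intro y hy t ht
  exact h.two hn hs h0 h1 hx hy ht

/-- (3) -/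
theorem TD.minor (h : TD n P K) (hn : 3 ≤ n) (hs : Star D P K) {k l s x : B} (hk : k ∈ K)
    (hl : l ∈ K) (hsP : s ∈ P) (hx : x ∈ P) :
    mu D k s * mu D l x - mu D k x * mu D l s ∈ ann P K := by
  have hks : k * s ∈ K := h.kp k hk s hsP
  have hkx : k * x ∈ K := h.kp k hk x hx
  have h1 := (ann P K).mul_mem_left (D.T s) (h.dd hn hs hk hl hx)
  have h2 := h.dd hn hs hks hl hx
  have h3 := (ann P K).mul_mem_left (D.T x) (h.dd hn hs hk hl hsP)
  have h4 := h.dd hn hs hkx hl hsP
  have ea : D.T (k * s * x) = D.T (k * x * s) := by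
    rw [D.assoc, D.assoc, mul_comm s x]
  have e : mu D k s * mu D l x - mu D k x * mu D l s =
      D.T s * (D.T k * mu D l x - D.T l * mu D k x) -
      (D.T (k * s) * mu D l x - D.T l * mu D (k * s) x) -
      D.T x * (D.T k * mu D l s - D.T l * mu D k s) +
      (D.T (k * x) * mu D l s - D.T l * mu D (k * x) s) := by
    unfold mu
    rw [ea]
    ring
  rw [e]
  exact (ann P K).add_mem ((ann P K).sub_mem ((ann P K).sub_mem h1 h2) h3) h4

/-- (4) -/
theorem TD.powr (h : TD n P K) (hn : 3 ≤ n) (hs : Star D P K) {k s t : B} (hk : k ∈ K)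
    (hsP : s ∈ P) (ht : t ∈ P) : mu D k s ^ n • t ∈ K := by
  have h1 : ∀ j : ℕ, D.T k ^ j • pw s j - mu D k s ^ j • s ∈ K := by
    intro j
    induction j with
    | zero =>
      rw [pow_zero, pow_zero]
      show (1 : F) • s - (1 : F) • s ∈ K
      rw [sub_self]
      exact K.zero_mem
    | succ j ih =>
      have h2 := h.pk hsP ih
      rw [mul_sub, D.mul_smul', D.mul_smul'] at h2
      have h3 := K.smul_mem (D.T k) h2
      have h4 := K.smul_mem (mu D k s ^ j) (h.lin hn hs hk hsP)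
      have e : D.T k ^ (j + 1) • pw s (j + 1) - mu D k s ^ (j + 1) • s =
          D.T k • (D.T k ^ j • (s * pw s j) - mu D k s ^ j • (s * s)) +
          mu D k s ^ j • (D.T k • (s * s) - mu D k s • s) := by
        show D.T k ^ (j + 1) • (s * pw s j) - _ = _
        rw [pow_succ, pow_succ]
        module
      rw [e]
      exact K.add_mem h3 h4
  have h2 : mu D k s ^ (n - 1) • s ∈ K := by
    have h3 := h1 (n - 1)
    have h4 : D.T k ^ (n - 1) • pw s (n - 1) ∈ K := K.smul_mem _ (h.nil s hsP)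
    have h5 := K.sub_mem h4 h3
    rwa [sub_sub_cancel] at h5
  have h3 := K.smul_mem (mu D k s ^ (n - 1)) (h.pol hn hs hk hsP ht)
  have h4 : (2 * D.T k) • ((mu D k s ^ (n - 1) • s) * t) ∈ K := K.smul_mem _ (h.kp _ h2 t ht)
  rw [D.smul_mul] at h4
  have h5 : mu D k t • (mu D k s ^ (n - 1) • s) ∈ K := K.smul_mem _ h2
  have e : mu D k s ^ n • t = (2 * D.T k) • (mu D k s ^ (n - 1) • (s * t)) -
      mu D k t • (mu D k s ^ (n - 1) • s) -
      mu D k s ^ (n - 1) • ((2 : F) • (D.T k • (s * t)) - (mu D k s • t + mu D k t • s)) := by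
    have e1 : mu D k s ^ n = mu D k s ^ (n - 1) * mu D k s := by
      rw [← pow_succ]
      congr 1
      omega
    rw [e1]
    module
  rw [e]
  exact K.sub_mem (K.sub_mem h4 h5) h3

end Pool.Agent.H.MP_e16c79_al.TQ
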