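import Pool.Agent.H.MP_e16c79_al.TQ.Defs

/-!
# MP_e16c79_al: the nil condition on the span of an additive subgroup
-/

set_option autoImplicit false

namespace Pool.Agent.H.MP_e16c79_al.TQ

open Finset AL

section

variable {F B : Type*} [CommRing F] [NonUnitalNonAssocCommRing B] [Module F B]

theorem cn_sumF (hm : ∀ (c : F) (a b : B), (c • a) * b = c • (a * b)) (x h : B) (m : ℕ) (i : F) :
    pw (x + i • h) m = ∑ k ∈ range (m + 2), i ^ k • Hom3.cn x h m k := by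
  have hm' : ∀ (c : F) (a b : B), a * (c • b) = c • (a * b) := fun c a b => by
    rw [mul_comm, hm, mul_comm]
  induction m with
  | zero =>
    rw [sum_range_succ, sum_range_succ, sum_range_zero, zero_add, pow_zero, one_smul, pow_one]
    rfl
  | succ m ih =>
    show (x + i • h) * pw (x + i • h) m = _
    rw [ih, sum_range_succ' _ (m + 2)]
    have e1 : ∑ k ∈ range (m + 2), i ^ (k + 1) • Hom3.cn x h (m + 1) (k + 1) =
        ∑ k ∈ range (m + 2), i ^ (k + 1) • (x * Hom3.cn x h m (k + 1)) +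
        ∑ k ∈ range (m + 2), i ^ (k + 1) • (h * Hom3.cn x h m k) := by
      rw [← sum_add_distrib]
      refine sum_congr rfl fun k _ => ?_
      rw [← smul_add]
      rfl
    have e2 : ∑ k ∈ range (m + 2), i ^ (k + 1) • (x * Hom3.cn x h m (k + 1)) +
        i ^ 0 • (x * Hom3.cn x h m 0) = x * ∑ k ∈ range (m + 2), i ^ k • Hom3.cn x h m k := by
      rw [← sum_range_succ' (fun k => i ^ k • (x * Hom3.cn x h m k)) (m + 2), sum_range_succ,
        Hom3.cn_big x h m (m + 2) (by omega), mul_zero, smul_zero, add_zero, mul_sum]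
      refine sum_congr rfl fun k _ => ?_
      rw [hm']
    have e3 : ∑ k ∈ range (m + 2), i ^ (k + 1) • (h * Hom3.cn x h m k) =
        (i • h) * ∑ k ∈ range (m + 2), i ^ k • Hom3.cn x h m k := by
      rw [mul_sum]
      refine sum_congr rfl fun k _ => ?_
      rw [hm', hm, ← mul_smul, pow_succ]
    rw [e1, e3]
    show _ = _ + _ + i ^ 0 • (x * Hom3.cn x h m 0)
    rw [add_right_comm, e2, add_mul]

theorem cn_memK {n : ℕ} {A : AddSubgroup B} {K : Submodule F B}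
    (hK : ∀ x, (2 * n.factorial) • x ∈ K → x ∈ K) (hA : ∀ x ∈ A, pw x (n - 1) ∈ K)
    {x h : B} (hx : x ∈ A) (hh : h ∈ A) (k : ℕ) : Hom3.cn x h (n - 1) k ∈ K := by
  rcases Nat.lt_or_ge k (n - 1 + 1 + 1) with hk | hk
  · have tf : ∀ d : ℕ, 1 ≤ d → d ≤ n - 1 + 1 → ∀ r : B ⧸ K, (d : ℤ) • r = 0 → r = 0 := by
      intro d hd1 hd2 r hr
      obtain ⟨y, rfl⟩ := K.mkQ_surjective r
      rw [← map_zsmul, Submodule.mkQ_apply, Submodule.Quotient.mk_eq_zero] at hr
      rw [Submodule.mkQ_apply, Submodule.Quotient.mk_eq_zero]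
      refine hK y ?_
      have hd : d ∣ 2 * n.factorial := by
        rcases Nat.eq_zero_or_pos n with rfl | hn
        · have : d = 1 := by omega
          rw [this]
          exact one_dvd _
        · exact dvd_N hd1 (by omega)
      obtain ⟨c, hc⟩ := hd
      rw [hc, mul_comm d c, mul_smul]
      rw [natCast_zsmul] at hr
      exact K.toAddSubgroup.nsmul_mem hr c
    have h2 := HS.vand (n - 1 + 1) tf (fun j => K.mkQ (Hom3.cn x h (n - 1) j)) (fun i => ?_)
      ⟨k, hk⟩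
    · exact (Submodule.Quotient.mk_eq_zero K).1 h2
    · have e := Hom3.cn_sum x h (n - 1) ((i : ℕ) : ℤ)
      have e1 := congrArg (fun z => K.mkQ z) e
      simp only [map_sum, map_zsmul] at e1
      have e2 : K.mkQ (pw (x + ((i : ℕ) : ℤ) • h) (n - 1)) = 0 :=
        (Submodule.Quotient.mk_eq_zero K).2 (hA _ (A.add_mem hx (A.zsmul_mem hh _)))
      rw [e2] at e1
      rw [← Fin.sum_univ_eq_sum_range (fun k => (((i : ℕ) : ℤ)) ^ k •
        K.mkQ (Hom3.cn x h (n - 1) k))] at e1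
      exact e1.symm
  · rw [Hom3.cn_big x h (n - 1) k (by omega)]
    exact K.zero_mem

/-- `A + c A` -/
def ext (A : AddSubgroup B) (c : F) : AddSubgroup B where
  carrier := {x | ∃ a ∈ A, ∃ b ∈ A, x = a + c • b}
  zero_mem' := ⟨0, A.zero_mem, 0, A.zero_mem, by rw [smul_zero, add_zero]⟩
  add_mem' := by
    rintro x y ⟨a, ha, b, hb, rfl⟩ ⟨a', ha', b', hb', rfl⟩
    exact ⟨a + a', A.add_mem ha ha', b + b', A.add_mem hb hb', by rw [smul_add]; abel⟩
  neg_mem' := by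
    rintro x ⟨a, ha, b, hb, rfl⟩
    exact ⟨-a, A.neg_mem ha, -b, A.neg_mem hb, by rw [smul_neg]; abel⟩

theorem pol_span (hm : ∀ (c : F) (a b : B), (c • a) * b = c • (a * b)) {n : ℕ} (A : AddSubgroup B)
    (K : Submodule F B) (hK : ∀ x, (2 * n.factorial) • x ∈ K → x ∈ K)
    (hA : ∀ x ∈ A, pw x (n - 1) ∈ K) :
    ∀ x ∈ Submodule.span F (A : Set B), pw x (n - 1) ∈ K := by
  have key : ∀ x ∈ Submodule.span F (A : Set B), ∀ A1 : AddSubgroup B, A ≤ A1 →
      (∀ x ∈ A1, pw x (n - 1) ∈ K) →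
      ∃ A2 : AddSubgroup B, A1 ≤ A2 ∧ (∀ x ∈ A2, pw x (n - 1) ∈ K) ∧ x ∈ A2 := by
    intro x hx
    refine Submodule.span_induction (p := fun x _ => ∀ A1 : AddSubgroup B, A ≤ A1 →
      (∀ x ∈ A1, pw x (n - 1) ∈ K) →
      ∃ A2 : AddSubgroup B, A1 ≤ A2 ∧ (∀ x ∈ A2, pw x (n - 1) ∈ K) ∧ x ∈ A2) ?_ ?_ ?_ ?_ hx
    · intro y hy A1 h1 h2
      exact ⟨A1, le_rfl, h2, h1 hy⟩
    · intro A1 _ h2
      exact ⟨A1, le_rfl, h2, A1.zero_mem⟩
    · intro y z _ _ hy hz A1 h1 h2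
      obtain ⟨A2, h3, h4, h5⟩ := hy A1 h1 h2
      obtain ⟨A3, h6, h7, h8⟩ := hz A2 (h1.trans h3) h4
      exact ⟨A3, h3.trans h6, h7, A3.add_mem (h6 h5) h8⟩
    · intro c y _ hy A1 h1 h2
      obtain ⟨A2, h3, h4, h5⟩ := hy A1 h1 h2
      refine ⟨ext A2 c, ?_, ?_, ?_⟩
      · intro z hz
        exact ⟨z, h3 hz, 0, A2.zero_mem, by rw [smul_zero, add_zero]⟩
      · rintro z ⟨a, ha, b, hb, rfl⟩
        rw [cn_sumF hm]
        exact Submodule.sum_mem _ fun k _ => K.smul_mem _ (cn_memK hK h4 ha hb k)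
      · exact ⟨0, A2.zero_mem, y, h5, by rw [zero_add]⟩
  intro x hx
  obtain ⟨A2, _, h2, h3⟩ := key x hx A le_rfl hA
  exact h2 x h3

end

end Pool.Agent.H.MP_e16c79_al.TQ
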