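import Pool.Agent.H.MP_e16c79_al.TQ.Lay
import Pool.Agent.H.MP_e16c79_al.TQ.Pol

/-!
# MP_e16c79_al: the subalgebra generated by an image
-/

set_option autoImplicit false

namespace Pool.Agent.H.MP_e16c79_al.TQ

open AL

variable {F B : Type*} [CommRing F] [NonUnitalNonAssocCommRing B] [Module F B]

theorem pw_map {S : Type*} [NonUnitalNonAssocCommRing S] {R : Type*} [NonUnitalNonAssocCommRing R]
    (f : S →+ R) (hf : ∀ a b, f (a * b) = f a * f b) (s : S) (k : ℕ) :
    f (pw s k) = pw (f s) k := by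
  induction k with
  | zero => rfl
  | succ k ih =>
    show f (s * pw s k) = f s * pw (f s) k
    rw [hf, ih]

theorem pw_nsmul (c : ℕ) (x : B) (k : ℕ) : pw (c • x) k = (c ^ (k + 1) : ℕ) • pw x k := by
  induction k with
  | zero =>
    show c • x = (c ^ (0 + 1) : ℕ) • x
    rw [zero_add, pow_one]
  | succ k ih =>
    show (c • x) * pw (c • x) k = (c ^ (k + 1 + 1) : ℕ) • (x * pw x k)
    rw [ih, smul_mul_assoc, mul_smul_comm, smul_smul, ← pow_succ']

theorem span_mul (D : Deg3 F B) {X Y Z : Set B}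
    (h : ∀ x ∈ X, ∀ y ∈ Y, x * y ∈ Z) :
    ∀ x ∈ Submodule.span F X, ∀ y ∈ Submodule.span F Y, x * y ∈ Submodule.span F Z := by
  intro x hx y hy
  refine Submodule.span_induction (p := fun x _ => x * y ∈ Submodule.span F Z) ?_ ?_ ?_ ?_ hx
  · intro x hx
    refine Submodule.span_induction (p := fun y _ => x * y ∈ Submodule.span F Z) ?_ ?_ ?_ ?_ hy
    · intro y hy
      exact Submodule.subset_span (h x hx y hy)
    · rw [mul_zero]
      exact Submodule.zero_mem _
    · intro a b _ _ ha hb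
      rw [mul_add]
      exact Submodule.add_mem _ ha hb
    · intro c a _ ha
      rw [D.mul_smul']
      exact Submodule.smul_mem _ c ha
  · rw [zero_mul]
    exact Submodule.zero_mem _
  · intro a b _ _ ha hb
    rw [add_mul]
    exact Submodule.add_mem _ ha hb
  · intro c a _ ha
    rw [D.smul_mul]
    exact Submodule.smul_mem _ c ha

theorem td_of (D : Deg3 F B) {n : ℕ} (hn : 3 ≤ n) {J : Type*} [NonUnitalNonAssocCommRing J]
    (hnil : ∀ a : J, (fun x => a * x)^[n - 1] a = 0)
    {S : Type*} [NonUnitalNonAssocCommRing S] (π : S →ₙ+* J)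
    (f : S →+ B) (hf : ∀ a b, f (a * b) = f a * f b) :
    TD n (sat (2 * n.factorial) (Submodule.span F (Set.range f)))
      (sat (2 * n.factorial) (Submodule.span F (f '' {t | π t = 0}))) where
  le := sat_mono _ (Submodule.span_mono (Set.image_subset_range _ _))
  pp := sat_mul fun x hx y hy => le_sat _ _ (span_mul D (by
    rintro _ ⟨a, rfl⟩ _ ⟨b, rfl⟩
    exact ⟨a * b, hf a b⟩) x hx y hy)
  kp := sat_mul fun x hx y hy => le_sat _ _ (span_mul D (by
    rintro _ ⟨a, ha, rfl⟩ _ ⟨b, rfl⟩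
    have ha' : π a = 0 := ha
    refine ⟨a * b, ?_, hf a b⟩
    show π (a * b) = 0
    rw [map_mul, ha', zero_mul]) x hx y hy)
  nil := by
    rintro x ⟨k, hk⟩
    have h1 : ∀ y ∈ f.range, pw y (n - 1) ∈
        sat (2 * n.factorial) (Submodule.span F (f '' {t | π t = 0})) := by
      rintro _ ⟨s, rfl⟩
      rw [← pw_map f hf]
      refine le_sat _ _ (Submodule.subset_span ⟨_, ?_, rfl⟩)
      show π (pw s (n - 1)) = 0
      have h2 := pw_map (π : S →+ J) (fun a b => map_mul π a b) s (n - 1)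
      have h3 : π (pw s (n - 1)) = pw (π s) (n - 1) := h2
      rw [h3, ← pw_iter, hnil]
    have h2 := pol_span D.smul_mul (n := n) f.range
      (sat (2 * n.factorial) (Submodule.span F (f '' {t | π t = 0})))
      (fun x hx => sat_of hx) h1 _ hk
    rw [pw_nsmul, ← pow_mul] at h2
    exact sat_pow _ h2
  sp _ hx := sat_of hx
  sk _ hx := sat_of hx

end Pool.Agent.H.MP_e16c79_al.TQ
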