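import Pool.Agent.H.MP_e16c79_al.TQ.Top
import Pool.Agent.H.MP_e16c79_al.TQ.Td
import Pool.Agent.H.MP_e16c79_al.IS.Joint

/-!
# MP_e16c79_al: images of special Jordan rings and quotients of subrings of algebras of degree three
-/

set_option autoImplicit false

namespace Pool.Agent.H.MP_e16c79_al.TQ

open AL IS

universe u v w

/-- the image of the derived series of `S`, in full generality -/
theorem core0 {F B : Type*} [CommRing F] [NonUnitalNonAssocCommRing B] [Module F B]
    (D : Deg3 F B) {n : ℕ} (hn : 3 ≤ n) {J : Type w} [NonUnitalNonAssocCommRing J] [IsCommJordan J]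
    (hnil : ∀ a : J, (fun x => a * x)^[n - 1] a = 0)
    {S : Type v} [NonUnitalNonAssocCommRing S] (π : S →ₙ+* J) (hπ : Function.Surjective π)
    (f : S →+ B) (hf : ∀ a b, f (a * b) = f a * f b) (E : ℕ → AddSubgroup J) (hE0 : E 0 = ⊤)
    (hEs : ∀ i, E (i + 1) = AddSubgroup.closure {x : J | ∃ a ∈ E i, ∃ b ∈ E i, x = a * b}) :
    ∀ s ∈ Dr (⊤ : AddSubgroup S) (kk n),
      f s ∈ sat (2 * n.factorial) (Submodule.span F (f '' {t | π t = 0})) := by
  have h := td_of D hn hnil π f hf
  have h1 := core D hn h hnil π hπ f hf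
    (fun s => le_sat _ _ (Submodule.subset_span ⟨s, rfl⟩))
    (fun s hs => le_sat _ _ (Submodule.subset_span ⟨s, hs, rfl⟩)) E hE0 hEs
  intro s hs
  refine h1 s ?_
  have e : kk n = qq n + (kk n - qq n) := by
    have : qq n ≤ kk n := qq_le hn
    omega
  rw [e] at hs
  exact Dr_anti _ _ hs

theorem joint0 (hB : BlkStmt.{u, v}) {J : Type w} [NonUnitalNonAssocCommRing J] [IsCommJordan J]
    {n : ℕ} (hn : 1 ≤ n) (hnil : ∀ a : J, (fun x => a * x)^[n - 1] a = 0)
    {S : Type v} [NonUnitalNonAssocCommRing S] (π : S →ₙ+* J) (hπ : Function.Surjective π)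
    {A : Type u} [NonUnitalRing A] (φ : S →+ A)
    (hφ : ∀ x y, 2 • φ (x * y) = φ x * φ y + φ y * φ x)
    {F B : Type*} [CommRing F] [NonUnitalNonAssocCommRing B] [Module F B] (D : Deg3 F B)
    (f : S →+ B) (hf : ∀ a b, f (a * b) = f a * f b) (E : ℕ → AddSubgroup J) (hE0 : E 0 = ⊤)
    (hEs : ∀ i, E (i + 1) = AddSubgroup.closure {x : J | ∃ a ∈ E i, ∃ b ∈ E i, x = a * b}) :
    ∀ x ∈ E (kk n), ∃ (m : ℕ) (s : S), φ s = 0 ∧
      f s ∈ Submodule.span F (f '' {t | π t = 0}) ∧ π s = ((2 * n.factorial) ^ m) • x := by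
  intro x hx
  rcases Nat.lt_or_ge n 3 with h | h
  · have h5 : x ∈ E (0 + 1) := by
      have e : kk n = 0 + 1 + (kk n - 1) := by
        unfold kk
        omega
      rw [e] at hx
      exact AL.D_le hE0 hEs (0 + 1) _ hx
    have h6 := mul_small hn h hnil hEs x h5
    refine ⟨1, 0, map_zero _, by rw [map_zero]; exact Submodule.zero_mem _, ?_⟩
    rw [map_zero, pow_one, mul_comm, mul_smul, h6, smul_zero]
  · obtain ⟨s, hs, e⟩ := Dr_pi π hπ hEs _ x hx
    let K : AddSubgroup S := sa (MM n) ((π : S →+ J).ker ⊔ φ.ker)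
    have hMM : MM n = (n.factorial : ℤ) * 2 := by
      unfold MM
      push_cast
      ring
    have hK : Lv (MM n) φ n K := by
      refine ⟨?_, ?_, ?_, ?_⟩
      · intro a ha b
        have h1 : K ≤ K.comap (AddMonoidHom.mulRight b) := by
          refine sa_le (sup_le (fun k hk => ?_) (fun k hk => ?_)) ?_
          · have hk' : π k = 0 := hk
            refine le_sa _ _ (AddSubgroup.mem_sup_left ?_)
            show π (k * b) = 0
            rw [map_mul, hk', zero_mul]
          · have hk' : φ k = 0 := hk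
            refine sa_of (le_sa _ _ (AddSubgroup.mem_sup_right ?_))
            show φ (MM n • (k * b)) = 0
            have h2 := hφ k b
            rw [hk', zero_mul, mul_zero, add_zero] at h2
            have h3 : (2 : ℤ) • φ (k * b) = 0 := by
              rw [← h2]
              exact two_smul ℤ _ |>.trans (two_smul ℕ _).symm
            rw [map_zsmul, hMM, mul_smul, h3, smul_zero]
          · intro r hr
            have hr' : (MM n • r) * b ∈ K := hr
            rw [smul_mul_assoc] at hr'
            exact sa_of hr'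
        exact h1 ha
      · intro a ha
        exact sa_of ha
      · intro s hs
        exact le_sa _ _ (AddSubgroup.mem_sup_right hs)
      · intro a
        refine le_sa _ _ (AddSubgroup.mem_sup_left ?_)
        show π ((fun x => a * x)^[n - 1] a) = 0
        rw [iter_map, hnil]
    have h4 := main h (gl_of hB φ hφ n) n le_rfl K hK
    obtain ⟨k, hk⟩ := h4 hs
    obtain ⟨a, ha, b, hb, hab⟩ := AddSubgroup.mem_sup.1 hk
    have ha' : π a = 0 := ha
    have hb' : φ b = 0 := hb
    have e1 : π b = (MM n ^ k) • x := by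
      have h6 := congrArg π hab
      rw [map_add, ha', zero_add, map_zsmul, e] at h6
      exact h6
    obtain ⟨l, hl⟩ := core0 D h hnil π hπ f hf E hE0 hEs s hs
    have hl' : ((2 * n.factorial) ^ l : ℕ) • f s ∈ Submodule.span F (f '' {t | π t = 0}) := hl
    have hfa : f a ∈ Submodule.span F (f '' {t | π t = 0}) := Submodule.subset_span ⟨a, ha', rfl⟩
    refine ⟨l + k, ((2 * n.factorial) ^ l : ℕ) • b, ?_, ?_, ?_⟩
    · rw [map_nsmul, hb', smul_zero]
    · have e2 : f b = (MM n ^ k) • f s - f a := by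
        rw [← map_zsmul, ← hab, map_add, add_sub_cancel_left]
      rw [map_nsmul, e2, smul_sub, smul_comm]
      exact Submodule.sub_mem _ ((Submodule.span F _).toAddSubgroup.zsmul_mem hl' _)
        ((Submodule.span F _).toAddSubgroup.nsmul_mem hfa _)
    · rw [map_nsmul, e1, pow_add, mul_smul]
      unfold MM
      rw [← Nat.cast_pow, natCast_zsmul]

/-- THE JOINT THEOREM -/
theorem joint (hB : BlkStmt.{u, v}) {J : Type w} [NonUnitalNonAssocCommRing J] [IsCommJordan J]
    {n : ℕ} (hn : 1 ≤ n) (hnil : ∀ a : J, (fun x => a * x)^[n - 1] a = 0)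
    {S : Type v} [NonUnitalNonAssocCommRing S] (π : S →ₙ+* J) (hπ : Function.Surjective π)
    {A : Type u} [NonUnitalRing A] (φ : S →+ A)
    (hφ : ∀ x y, 2 • φ (x * y) = φ x * φ y + φ y * φ x)
    {F B : Type*} [CommRing F] [NonUnitalNonAssocCommRing B] [Module F B] (D : Deg3 F B)
    (f : S →+ B) (hf : ∀ a b, f (a * b) = f a * f b) (E : ℕ → AddSubgroup J) (hE0 : E 0 = ⊤)
    (hEs : ∀ i, E (i + 1) = AddSubgroup.closure {x : J | ∃ a ∈ E i, ∃ b ∈ E i, x = a * b}) :
    (∀ x ∈ E (kk n), ∃ (m : ℕ) (s : S), φ s = 0 ∧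
      f s ∈ Submodule.span F (f '' {t | π t = 0}) ∧ π s = ((2 * n.factorial) ^ m) • x) ∧
    ((∀ a : J, (2 * n.factorial) • a = 0 → a = 0) →
      (∀ s, φ s = 0 → f s ∈ Submodule.span F (f '' {t | π t = 0}) → π s = 0) →
      E (kk n) = ⊥ ∧
      (Function.Injective π → E (n * Nat.clog 2 (n + 2) + (2 * n - 1)) = ⊥)) := by
  have h0 := joint0 hB hn hnil π hπ φ hφ D f hf E hE0 hEs
  refine ⟨h0, fun htf hker => ⟨?_, fun hinj => ?_⟩⟩
  · rw [eq_bot_iff]
    intro x hx
    obtain ⟨m, s, h1, h2, h3⟩ := h0 x hx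
    have h4 := hker s h1 h2
    rw [h3] at h4
    exact tf_pow htf m x h4
  · let e : J → S := fun x => (hπ x).choose
    have he : ∀ x, π (e x) = x := fun x => (hπ x).choose_spec
    let g : J →+ S :=
      { toFun := e
        map_zero' := hinj (by rw [he, map_zero])
        map_add' := fun x y => hinj (by rw [map_add, he, he, he]) }
    have hg : ∀ x y, g (x * y) = g x * g y := fun x y => hinj (by
      show π (e (x * y)) = π (e x * e y)
      rw [map_mul, he, he, he])
    let H : Hom3 J F B := { D with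
      f := f.comp g
      mul := fun x y => by
        show f (g (x * y)) = f (g x) * f (g y)
        rw [hg, hf] }
    refine AL.joint hn hnil htf (φ.comp g) (fun x y => ?_) H (fun x hx1 hx2 => ?_) E hE0 hEs
    · show 2 • φ (g (x * y)) = φ (g x) * φ (g y) + φ (g y) * φ (g x)
      rw [hg]
      exact hφ _ _
    · have hx2' : f (g x) = 0 := hx2
      have h1 := hker (g x) hx1 (by
        rw [hx2']
        exact Submodule.zero_mem _)
      have h2 : π (g x) = x := he x
      rw [h2] at h1
      exact h1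

end Pool.Agent.H.MP_e16c79_al.TQ
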