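import Pool.Agent.H.MP_e16c79_al.TQ.Defs
import Pool.Agent.H.MP_e16c79_al.IS.TQE

/-!
# MP_e16c79_al: ideals of a commutative ring, nil modulo a saturated ideal

`ideal_pow`: polarised nil condition. `minor_pow`: the same for the ideal generated by the entries
of a matrix with `2 × 2` minors zero modulo the ideal.
-/

set_option autoImplicit false

namespace Pool.Agent.H.MP_e16c79_al.TQ

open Finset

private lemma span_pow_le {F : Type*} [CommRing F] (U : Set F) (A : Ideal F) (n : ℕ)
    (h : ∀ l : List F, (∀ u ∈ l, u ∈ U) → l.length = n → l.prod ∈ A) :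
    Ideal.span U ^ n ≤ A := by
  have key : ∀ (m : ℕ), ∀ r ∈ Ideal.span U ^ m, ∀ l : List F, (∀ u ∈ l, u ∈ U) →
      m + l.length = n → r * l.prod ∈ A := by
    intro m
    induction m with
    | zero =>
      intro r _ l hl hn
      exact A.mul_mem_left r (h l hl (by omega))
    | succ m ih =>
      intro r hr l hl hn
      rw [pow_succ] at hr
      refine Submodule.mul_induction_on hr ?_ ?_
      · intro a ha s hs
        refine Submodule.span_induction ?_ ?_ ?_ ?_ hs
        · intro u hu
          have := ih a ha (u :: l) (by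
            intro v hv
            rcases List.mem_cons.1 hv with rfl | hv
            · exact hu
            · exact hl v hv) (by rw [List.length_cons]; omega)
          rw [List.prod_cons, ← mul_assoc] at this
          exact this
        · rw [mul_zero, zero_mul]
          exact A.zero_mem
        · intro x y _ _ hx hy
          rw [mul_add, add_mul]
          exact A.add_mem hx hy
        · intro c x _ hx
          have e : a * (c • x) * l.prod = c * (a * x * l.prod) := by
            rw [smul_eq_mul]
            ring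
          rw [e]
          exact A.mul_mem_left c hx
      · intro x y hx hy
        rw [add_mul]
        exact A.add_mem hx hy
  intro r hr
  have := key n r hr [] (by simp) (by simp)
  simpa using this

private lemma quot_tf {F : Type*} [CommRing F] {n : ℕ} {A : Ideal F}
    (hA : ∀ x, (2 * n.factorial) • x ∈ A → x ∈ A) :
    ∀ d : ℕ, 1 ≤ d → d ≤ n → ∀ r : F ⧸ A, (d : ℤ) • r = 0 → r = 0 := by
  intro d hd1 hd2 r hr
  obtain ⟨x, rfl⟩ := Ideal.Quotient.mk_surjective r
  rw [← map_zsmul, Ideal.Quotient.eq_zero_iff_mem] at hr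
  rw [Ideal.Quotient.eq_zero_iff_mem]
  refine hA x ?_
  obtain ⟨c, hc⟩ : d ∣ 2 * n.factorial := (Nat.dvd_factorial hd1 hd2).mul_left 2
  rw [hc, mul_comm d c, mul_smul]
  rw [natCast_zsmul] at hr
  exact A.toAddSubgroup.nsmul_mem hr c

theorem ideal_pow {F : Type*} [CommRing F] {n : ℕ} {I A : Ideal F} (hI : ∀ x ∈ I, x ^ n ∈ A)
    (hA : ∀ x, (2 * n.factorial) • x ∈ A → x ∈ A) : I ^ n ≤ A := by
  let q : F →+* F ⧸ A := Ideal.Quotient.mk A
  let ρ : I →+ F ⧸ A := (q : F →+ F ⧸ A).comp I.subtype.toAddMonoidHom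
  have hρ : ∀ x : I, ρ x = q x := fun x => rfl
  have h1 : Ideal.span (I : Set F) ^ n ≤ A := by
    refine span_pow_le _ A n ?_
    intro l hl hn
    have h2 := IS.polar ρ (fun _ _ => Commute.all _ _) n (quot_tf hA) (by
      intro x
      rw [hρ, ← map_pow]
      exact Ideal.Quotient.eq_zero_iff_mem.2 (hI x x.2)) (l.attach.map fun u => ⟨u.1, hl u.1 u.2⟩) 0
      (by rw [List.length_map, List.length_attach]; omega) 0
    rw [pow_zero, one_mul, List.map_map] at h2
    have h3 : (List.map (⇑ρ ∘ fun u : {x // x ∈ l} => (⟨u.1, hl u.1 u.2⟩ : I)) l.attach) =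
        l.map q := by
      conv_rhs => rw [← List.attach_map_subtype_val l, List.map_map]
      rfl
    rw [h3, ← map_list_prod] at h2
    exact Ideal.Quotient.eq_zero_iff_mem.1 h2
  rwa [Ideal.span_eq] at h1

theorem minor_pow {F : Type*} [CommRing F] {n : ℕ} (A : Ideal F)
    (hA : ∀ x, (2 * n.factorial) • x ∈ A → x ∈ A) {G H : Type*} [AddCommGroup G]
    [AddCommGroup H] (z : G →+ H →+ F) (h1 : ∀ g h, z g h ^ n ∈ A)
    (h2 : ∀ g g' h h', z g h * z g' h' - z g h' * z g' h ∈ A) :
    (Ideal.span {u | ∃ g h, u = z g h}) ^ n ≤ A := by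
  let q : F →+* F ⧸ A := Ideal.Quotient.mk A
  let b' : G →+ H →+ F ⧸ A :=
    { toFun := fun k => (q : F →+ F ⧸ A).comp (z k)
      map_zero' := by
        ext s
        simp
      map_add' := by
        intro k k'
        ext s
        simp }
  have hb' : ∀ k s, b' k s = q (z k s) := fun k s => rfl
  have h3 := IS.tqe b' n (quot_tf hA) (by
      intro k k' s t
      rw [hb', hb', hb', hb', ← map_mul, ← map_mul, ← sub_eq_zero, ← map_sub]
      exact Ideal.Quotient.eq_zero_iff_mem.2 (h2 k k' s t)) (by
      intro k s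
      rw [hb', ← map_pow]
      exact Ideal.Quotient.eq_zero_iff_mem.2 (h1 k s))
  refine span_pow_le _ A n ?_
  intro l hl hn
  have h4 : ∃ l' : List (G × H), l = l'.map fun p => z p.1 p.2 := by
    clear hn
    induction l with
    | nil => exact ⟨[], rfl⟩
    | cons u l ih =>
      obtain ⟨g, h, hu⟩ := hl u List.mem_cons_self
      obtain ⟨l', hl'⟩ := ih fun v hv => hl v (List.mem_cons_of_mem _ hv)
      exact ⟨(g, h) :: l', by rw [List.map_cons, ← hl', ← hu]⟩
  obtain ⟨l', rfl⟩ := h4
  have h5 := h3 l' (by simpa using hn)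
  have h6 : q ((l'.map fun p => z p.1 p.2).prod) = 0 := by
    rw [map_list_prod, List.map_map]
    exact h5
  exact Ideal.Quotient.eq_zero_iff_mem.1 h6

end Pool.Agent.H.MP_e16c79_al.TQ
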