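import Pool.Agent.H.MP_e16c79_al.TQ.Deg
import Pool.Agent.H.MP_e16c79_al.TQ.Mul

/-!
# MP_e16c79_al: the layer of the traces of an ideal is solvable
-/

set_option autoImplicit false

namespace Pool.Agent.H.MP_e16c79_al.TQ

open Finset AL

variable {F B : Type*} [CommRing F] [NonUnitalNonAssocCommRing B] [Module F B] (D : Deg3 F B)
  {n : ℕ} {P K : Submodule F B}

/-- the form `S(k, s)` on `K × P` -/
def zz (P K : Submodule F B) : K →+ P →+ F where
  toFun k := AddMonoidHom.mk' (fun s => mu D (k : B) (s : B)) fun s t => mu_add _ _ _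
  map_zero' := by
    ext s
    show mu D ((0 : K) : B) (s : B) = 0
    unfold mu
    rw [ZeroMemClass.coe_zero, zero_mul, map_zero, zero_mul, sub_zero]
  map_add' k l := by
    ext s
    exact mu_add_left _ _ _

/-- the ideal of the values of the form -/
def mm (P K : Submodule F B) : Ideal F := Ideal.span {u | ∃ (k : K) (s : P), u = zz D P K k s}

variable {D}

theorem mu_mem {k s : B} (hk : k ∈ K) (hs : s ∈ P) : mu D k s ∈ mm D P K :=
  Ideal.subset_span ⟨⟨k, hk⟩, ⟨s, hs⟩, rfl⟩

/-- (5) -/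
theorem TD.mpow (h : TD n P K) (hn : 3 ≤ n) (hs : Star D P K) : mm D P K ^ n ≤ ann P K := by
  refine minor_pow (ann P K) ?_ (zz D P K) ?_ ?_
  · intro x hx y hy t ht
    refine h.sk _ ?_
    rw [← smul_assoc]
    exact hx y hy t ht
  · intro k s y hy t ht
    exact h.powr hn hs k.2 s.2 (h.pp y hy t ht)
  · intro k l s t
    exact h.minor hn hs k.2 l.2 s.2 t.2

/-- the products -/
def sq (P : Submodule F B) : Submodule F B := Submodule.span F {z | ∃ a ∈ P, ∃ b ∈ P, z = a * b}

theorem TD.sq_le (h : TD n P K) : sq P ≤ P := by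
  refine Submodule.span_le.2 ?_
  rintro z ⟨a, ha, b, hb, rfl⟩
  exact h.pp a ha b hb

theorem TD.skp (h : TD n P K) (k : ℕ) : ∀ x : B, ((2 * n.factorial) ^ k : ℕ) • x ∈ K → x ∈ K := by
  induction k with
  | zero =>
    intro x hx
    rwa [pow_zero, one_smul] at hx
  | succ k ih =>
    intro x hx
    refine h.sk x (ih _ ?_)
    rwa [← mul_smul, ← pow_succ]

/-- the filtration -/
def LL (D : Deg3 F B) (n : ℕ) (P K : Submodule F B) (i : ℕ) : Submodule F B :=
  sat (2 * n.factorial) (K ⊔ ((mm D P K ^ i) * tr D K) • sq P)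

theorem sat_mul {N : ℕ} {X Y Z : Submodule F B} (h : ∀ x ∈ X, ∀ y ∈ Y, x * y ∈ sat N Z) :
    ∀ x ∈ sat N X, ∀ y ∈ sat N Y, x * y ∈ sat N Z := by
  rintro x ⟨k, hk⟩ y ⟨l, hl⟩
  refine sat_pow (k + l) ?_
  have h1 := h _ hk _ hl
  have e : ((N ^ (k + l) : ℕ) • (x * y)) = (N ^ k : ℕ) • x * (N ^ l : ℕ) • y := by
    rw [smul_mul_assoc, mul_smul_comm, smul_smul, ← pow_add]
  rwa [e]

/-- (6) -/
theorem TD.LL_mul (h : TD n P K) (hn : 3 ≤ n) (hs : Star D P K) (i j : ℕ) :
    ∀ x ∈ LL D n P K i, ∀ y ∈ LL D n P K j, x * y ∈ LL D n P K (i + j + 1) := by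
  unfold LL
  refine sat_mul ?_
  intro x hx y hy
  have hle : ∀ I : Ideal F, I • sq P ≤ P := fun I => (Submodule.smul_le_right).trans h.sq_le
  have hyP : y ∈ P := sup_le h.le (hle _) hy
  obtain ⟨k, hk, u, hu, rfl⟩ := Submodule.mem_sup.1 hx
  obtain ⟨l, hl, v, hv, rfl⟩ := Submodule.mem_sup.1 hy
  have huP : u ∈ P := hle _ hu
  rw [add_mul, mul_add u]
  refine Submodule.add_mem _ (le_sat _ _ (Submodule.mem_sup_left (h.kp k hk _ hyP)))
    (Submodule.add_mem _ (le_sat _ _ (Submodule.mem_sup_left (h.pk huP hl))) ?_)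
  clear hx hy hyP hk hl huP
  refine Submodule.smul_induction_on hu ?_ ?_
  · intro c hc a ha
    refine Submodule.smul_induction_on hv ?_ ?_
    · intro c' hc' b hb
      have haP := h.sq_le ha
      have hbP := h.sq_le hb
      rw [D.smul_mul, D.mul_smul', smul_smul]
      refine Submodule.mul_induction_on hc ?_ ?_
      · intro m hm lam hlam
        obtain ⟨k, hk, rfl⟩ := mem_tr.1 hlam
        refine sat_dvd (two_dvd n) (d := 2) (le_sat _ _ ?_)
        have h1 := h.pol hn hs hk haP hbP
        have h2 := K.smul_mem (m * c') h1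
        have e : (2 : ℕ) • ((m * D.T k * c') • (a * b)) =
            (m * c') • ((2 : F) • (D.T k • (a * b)) - (mu D k a • b + mu D k b • a)) +
            (((m * mu D k a) * c') • b + ((m * mu D k b) * c') • a) := by
          rw [← Nat.cast_smul_eq_nsmul F 2]
          push_cast
          module
        rw [e]
        have hm' : ∀ s ∈ P, m * mu D k s * c' ∈ mm D P K ^ (i + j + 1) * tr D K := by
          intro s hsP
          have h3 : m * mu D k s ∈ mm D P K ^ (i + 1) := by
            rw [pow_succ]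
            exact Ideal.mul_mem_mul hm (mu_mem hk hsP)
          have h4 : m * mu D k s * c' ∈ mm D P K ^ (i + 1) * (mm D P K ^ j * tr D K) :=
            Ideal.mul_mem_mul h3 hc'
          rw [← mul_assoc, ← pow_add, show i + 1 + j = i + j + 1 by omega] at h4
          exact h4
        exact Submodule.add_mem _ (Submodule.mem_sup_left h2) (Submodule.mem_sup_right
          (Submodule.add_mem _ (Submodule.smul_mem_smul (hm' a haP) hb)
            (Submodule.smul_mem_smul (hm' b hbP) ha)))
      · intro p q hp hq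
        rw [add_mul, add_smul]
        exact Submodule.add_mem _ hp hq
    · intro p q hp hq
      rw [mul_add]
      exact Submodule.add_mem _ hp hq
  · intro p q hp hq
    rw [add_mul]
    exact Submodule.add_mem _ hp hq

theorem TD.LL_last (h : TD n P K) (hn : 3 ≤ n) (hs : Star D P K) {i : ℕ} (hi : n ≤ i) :
    LL D n P K i ≤ K := by
  have h1 : (mm D P K ^ i) * tr D K ≤ ann P K :=
    Ideal.mul_le_left.trans ((Ideal.pow_le_pow_right hi).trans (h.mpow hn hs))
  have h2 : ((mm D P K ^ i) * tr D K) • sq P ≤ K := by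
    refine Submodule.smul_le.2 ?_
    intro u hu z hz
    have hu' := h1 hu
    refine Submodule.span_induction (p := fun z _ => u • z ∈ K) ?_ ?_ ?_ ?_ hz
    · rintro z ⟨a, ha, b, hb, rfl⟩
      exact hu' a ha b hb
    · rw [smul_zero]
      exact K.zero_mem
    · intro x y _ _ hx hy
      rw [smul_add]
      exact K.add_mem hx hy
    · intro c x _ hx
      rw [smul_comm]
      exact K.smul_mem c hx
  rintro x ⟨k, hk⟩
  exact h.skp k x (sup_le le_rfl h2 hk)

theorem TD.LL_first (h : TD n P K) :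
    ∀ x ∈ sat (2 * n.factorial) (K ⊔ tr D K • P), ∀ y ∈ sat (2 * n.factorial) (K ⊔ tr D K • P),
      x * y ∈ LL D n P K 0 := by
  unfold LL
  refine sat_mul ?_
  intro x hx y hy
  have hle : tr D K • P ≤ P := Submodule.smul_le_right
  have hyP : y ∈ P := sup_le h.le hle hy
  obtain ⟨k, hk, u, hu, rfl⟩ := Submodule.mem_sup.1 hx
  obtain ⟨l, hl, v, hv, rfl⟩ := Submodule.mem_sup.1 hy
  have huP : u ∈ P := hle hu
  rw [add_mul, mul_add u]
  refine le_sat _ _ (Submodule.add_mem _ (Submodule.mem_sup_left (h.kp k hk _ hyP))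
    (Submodule.add_mem _ (Submodule.mem_sup_left (h.pk huP hl)) (Submodule.mem_sup_right ?_)))
  clear hx hy hyP hk hl huP
  refine Submodule.smul_induction_on hu ?_ ?_
  · intro c hc a ha
    refine Submodule.smul_induction_on hv ?_ ?_
    · intro c' hc' b hb
      rw [D.smul_mul, D.mul_smul', smul_smul]
      refine Submodule.smul_mem_smul ?_ (Submodule.subset_span ⟨a, ha, b, hb, rfl⟩)
      rw [pow_zero, one_mul]
      exact Ideal.mul_mem_left _ _ hc'
    · intro p q hp hq
      rw [mul_add]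
      exact Submodule.add_mem _ hp hq
  · intro p q hp hq
    rw [add_mul]
    exact Submodule.add_mem _ hp hq

end Pool.Agent.H.MP_e16c79_al.TQ
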