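import Pool.Agent.H.MP_e16c79_al.TQ.Defs

/-!
# MP_e16c79_al: the quotient algebra of degree three
-/

set_option autoImplicit false

namespace Pool.Agent.H.MP_e16c79_al.TQ

open Finset AL

universe u

/-- the data of a subalgebra `C` with an ideal `I` -/
structure QD {F B : Type*} [CommRing F] [NonUnitalNonAssocCommRing B] [Module F B]
    (C I : Submodule F B) : Prop where
  sm : ∀ (c : F) (a b : B), (c • a) * b = c • (a * b)
  cc : ∀ x ∈ C, ∀ y ∈ C, x * y ∈ C
  le : I ≤ C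
  ic : ∀ x ∈ I, ∀ y ∈ C, x * y ∈ I

section quo

variable {F B : Type*} [CommRing F] [NonUnitalNonAssocCommRing B] [Module F B]
  {C I : Submodule F B}

/-- the quotient -/
abbrev Qt (C I : Submodule F B) : Type _ := C ⧸ (I.submoduleOf C)

/-- the class of an element of `C` -/
def cl (C I : Submodule F B) (x : B) (hx : x ∈ C) : Qt C I := Submodule.Quotient.mk ⟨x, hx⟩

theorem cl_eq {x y : B} (hx : x ∈ C) (hy : y ∈ C) : cl C I x hx = cl C I y hy ↔ x - y ∈ I :=
  Submodule.Quotient.eq (I.submoduleOf C)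

theorem cl_zero {x : B} (hx : x ∈ C) : cl C I x hx = 0 ↔ x ∈ I :=
  Submodule.Quotient.mk_eq_zero (I.submoduleOf C)

theorem cl_surj (q : Qt C I) : ∃ (x : B) (hx : x ∈ C), q = cl C I x hx := by
  obtain ⟨⟨x, hx⟩, rfl⟩ := Submodule.mkQ_surjective _ q
  exact ⟨x, hx, rfl⟩

theorem cl_add {x y : B} (hx : x ∈ C) (hy : y ∈ C) :
    cl C I x hx + cl C I y hy = cl C I (x + y) (C.add_mem hx hy) := rfl

theorem cl_sub {x y : B} (hx : x ∈ C) (hy : y ∈ C) :
    cl C I x hx - cl C I y hy = cl C I (x - y) (C.sub_mem hx hy) := rfl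

theorem cl_smul (c : F) {x : B} (hx : x ∈ C) :
    c • cl C I x hx = cl C I (c • x) (C.smul_mem c hx) := rfl

/-- the multiplication of the quotient -/
def qmul (h : QD C I) : Qt C I → Qt C I → Qt C I :=
  Quotient.map₂ (fun a b : C => (⟨(a : B) * (b : B), h.cc _ a.2 _ b.2⟩ : C)) (by
    intro a a' haa b b' hbb
    have h1 : a - a' ∈ I.submoduleOf C := (Submodule.quotientRel_def _).1 haa
    have h2 : b - b' ∈ I.submoduleOf C := (Submodule.quotientRel_def _).1 hbb
    refine (Submodule.quotientRel_def _).2 ?_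
    have h3 : (a : B) - (a' : B) ∈ I := h1
    have h4 : (b : B) - (b' : B) ∈ I := h2
    show (a : B) * (b : B) - (a' : B) * (b' : B) ∈ I
    have e : (a : B) * (b : B) - (a' : B) * (b' : B) =
        ((a : B) - (a' : B)) * (b : B) + ((b : B) - (b' : B)) * (a' : B) := by
      rw [sub_mul, sub_mul, mul_comm (b : B) (a' : B), mul_comm (b' : B) (a' : B)]
      abel
    rw [e]
    exact I.add_mem (h.ic _ h3 _ b.2) (h.ic _ h4 _ a'.2))

theorem qmul_cl (h : QD C I) {x y : B} (hx : x ∈ C) (hy : y ∈ C) :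
    qmul h (cl C I x hx) (cl C I y hy) = cl C I (x * y) (h.cc _ hx _ hy) := rfl

/-- the quotient ring -/
@[reducible] def qring (h : QD C I) : NonUnitalNonAssocCommRing (Qt C I) :=
  { (inferInstance : AddCommGroup (Qt C I)) with
    mul := qmul h
    left_distrib := by
      intro a b c
      obtain ⟨x, hx, rfl⟩ := cl_surj a
      obtain ⟨y, hy, rfl⟩ := cl_surj b
      obtain ⟨z, hz, rfl⟩ := cl_surj c
      show cl C I (x * (y + z)) _ = cl C I (x * y + x * z) _
      congr 1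
      exact mul_add x y z
    right_distrib := by
      intro a b c
      obtain ⟨x, hx, rfl⟩ := cl_surj a
      obtain ⟨y, hy, rfl⟩ := cl_surj b
      obtain ⟨z, hz, rfl⟩ := cl_surj c
      show cl C I ((x + y) * z) _ = cl C I (x * z + y * z) _
      congr 1
      exact add_mul x y z
    zero_mul := by
      intro a
      obtain ⟨x, hx, rfl⟩ := cl_surj a
      show cl C I (0 * x) _ = cl C I 0 _
      congr 1
      exact zero_mul x
    mul_zero := by
      intro a
      obtain ⟨x, hx, rfl⟩ := cl_surj a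
      show cl C I (x * 0) _ = cl C I 0 _
      congr 1
      exact mul_zero x
    mul_comm := by
      intro a b
      obtain ⟨x, hx, rfl⟩ := cl_surj a
      obtain ⟨y, hy, rfl⟩ := cl_surj b
      show cl C I (x * y) _ = cl C I (y * x) _
      congr 1
      exact mul_comm x y }

theorem tors {A : Ideal F} (hA : ∀ a ∈ A, ∀ x ∈ C, a • x ∈ I) :
    Module.IsTorsionBySet F (Qt C I) (A : Set F) := by
  intro q a
  obtain ⟨x, hx, rfl⟩ := cl_surj q
  show (a : F) • cl C I x hx = 0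
  rw [cl_smul, cl_zero]
  exact hA a a.2 x hx

/-- the quotient module -/
@[reducible] def qmod {A : Ideal F} (hA : ∀ a ∈ A, ∀ x ∈ C, a • x ∈ I) : Module (F ⧸ A) (Qt C I) :=
  (tors hA).module

/-- the trace of the quotient, as a map of additive groups -/
def qT (D : Deg3 F B) {A : Ideal F} (hT : ∀ x ∈ I, D.T x ∈ A) : Qt C I →+ F ⧸ A :=
  QuotientAddGroup.lift _
    (((Ideal.Quotient.mk A : F →+* F ⧸ A) : F →+ F ⧸ A).comp
      ((D.T : B →+ F).comp C.subtype.toAddMonoidHom))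
    (by
      intro x hx
      have h1 : (x : B) ∈ I := hx
      exact Ideal.Quotient.eq_zero_iff_mem.2 (hT _ h1))

theorem qT_cl (D : Deg3 F B) {A : Ideal F} (hT : ∀ x ∈ I, D.T x ∈ A) {x : B} (hx : x ∈ C) :
    qT D hT (cl C I x hx) = Ideal.Quotient.mk A (D.T x) := rfl

theorem qmod_cl {A : Ideal F} (hA : ∀ a ∈ A, ∀ x ∈ C, a • x ∈ I) (r : F) {x : B} (hx : x ∈ C) :
    (@HSMul.hSMul (F ⧸ A) (Qt C I) (Qt C I) (@instHSMul _ _ (qmod hA).toSMul)
      (Ideal.Quotient.mk A r) (cl C I x hx)) = cl C I (r • x) (C.smul_mem r hx) := rfl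

/-- the quotient algebra of degree three -/
def qdeg (D : Deg3 F B) (h : QD C I) {A : Ideal F} (hA : ∀ a ∈ A, ∀ x ∈ C, a • x ∈ I)
    (he : D.e ∈ C) (hT : ∀ x ∈ I, D.T x ∈ A) :
    @Deg3 (F ⧸ A) (Qt C I) _ (qring h) (qmod hA) :=
  letI := qring h
  letI := qmod hA
  { e := cl C I D.e he
    T :=
      { toFun := qT D hT
        map_add' := map_add _
        map_smul' := by
          intro c q
          obtain ⟨r, rfl⟩ := Ideal.Quotient.mk_surjective c
          obtain ⟨x, hx, rfl⟩ := cl_surj q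
          rw [qmod_cl hA, qT_cl, qT_cl, map_smul, smul_eq_mul, map_mul]
          rfl }
    smul_mul := by
      intro c a b
      obtain ⟨r, rfl⟩ := Ideal.Quotient.mk_surjective c
      obtain ⟨x, hx, rfl⟩ := cl_surj a
      obtain ⟨y, hy, rfl⟩ := cl_surj b
      show cl C I ((r • x) * y) _ = cl C I (r • (x * y)) _
      congr 1
      exact h.sm r x y
    one := by
      intro a
      obtain ⟨x, hx, rfl⟩ := cl_surj a
      show cl C I (D.e * x) _ = cl C I x _
      congr 1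
      exact D.one x
    assoc := by
      intro a b c
      obtain ⟨x, hx, rfl⟩ := cl_surj a
      obtain ⟨y, hy, rfl⟩ := cl_surj b
      obtain ⟨z, hz, rfl⟩ := cl_surj c
      show Ideal.Quotient.mk A (D.T (x * y * z)) = Ideal.Quotient.mk A (D.T (x * (y * z)))
      rw [D.assoc]
    cubic := by
      intro a
      obtain ⟨x, hx, rfl⟩ := cl_surj a
      have hxx : x * x ∈ C := h.cc x hx x hx
      have hxxx : x * (x * x) ∈ C := h.cc x hx _ hxx
      show cl C I ((6 : F) • (x * (x * x)) - (6 * D.T x) • (x * x) +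
        (3 * (D.T x ^ 2 - D.T (x * x))) • x -
        (D.T x ^ 3 - 3 * D.T x * D.T (x * x) + 2 * D.T (x * (x * x))) • D.e)
          (C.sub_mem (C.add_mem (C.sub_mem (C.smul_mem _ hxxx) (C.smul_mem _ hxx))
            (C.smul_mem _ hx)) (C.smul_mem _ he)) = 0
      rw [cl_zero, D.cubic]
      exact I.zero_mem }

end quo

section top

variable {F B : Type*} [CommRing F] [NonUnitalNonAssocCommRing B] [Module F B]
  {P K : Submodule F B}

/-- the subalgebra with one -/
def Ce (D : Deg3 F B) (P : Submodule F B) : Submodule F B := P ⊔ Submodule.span F {D.e}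

/-- the ideal of the subalgebra with one -/
def Ie (D : Deg3 F B) (P K : Submodule F B) : Submodule F B := K ⊔ (tr D K) • (Ce D P)

theorem mem_Ce {D : Deg3 F B} {x : B} : x ∈ Ce D P ↔ ∃ p ∈ P, ∃ r : F, x = p + r • D.e := by
  constructor
  · intro hx
    obtain ⟨p, hp, y, hy, rfl⟩ := Submodule.mem_sup.1 hx
    obtain ⟨r, rfl⟩ := Submodule.mem_span_singleton.1 hy
    exact ⟨p, hp, r, rfl⟩
  · rintro ⟨p, hp, r, rfl⟩
    exact Submodule.add_mem_sup hp (Submodule.smul_mem _ r (Submodule.mem_span_singleton_self _))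

theorem Ce_mul {D : Deg3 F B} (hp : ∀ x ∈ P, ∀ y ∈ P, x * y ∈ P) {x y : B} (hx : x ∈ Ce D P)
    (hy : y ∈ Ce D P) : x * y ∈ Ce D P := by
  obtain ⟨p, hp1, r, rfl⟩ := mem_Ce.1 hx
  obtain ⟨q, hq, s, rfl⟩ := mem_Ce.1 hy
  refine mem_Ce.2 ⟨p * q + s • p + r • q, P.add_mem (P.add_mem (hp _ hp1 _ hq) (P.smul_mem s hp1))
    (P.smul_mem r hq), r * s, ?_⟩
  rw [add_mul, mul_add, mul_add, D.mul_smul', D.mul_one', D.smul_mul, D.one, D.smul_mul,
    D.mul_smul', D.mul_one', smul_smul]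
  abel

theorem Ie_mul {D : Deg3 F B} {n : ℕ} (h : TD n P K) {x y : B} (hx : x ∈ Ie D P K)
    (hy : y ∈ Ce D P) : x * y ∈ Ie D P K := by
  obtain ⟨k, hk, z, hz, rfl⟩ := Submodule.mem_sup.1 hx
  rw [add_mul]
  refine Submodule.add_mem_sup ?_ ?_
  · obtain ⟨q, hq, s, rfl⟩ := mem_Ce.1 hy
    rw [mul_add, D.mul_smul', D.mul_one']
    exact K.add_mem (h.kp _ hk _ hq) (K.smul_mem s hk)
  · refine Submodule.smul_induction_on hz ?_ ?_
    · intro a ha b hb
      rw [D.smul_mul]
      exact Submodule.smul_mem_smul ha (Ce_mul h.pp hb hy)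
    · intro u v hu hv
      rw [add_mul]
      exact Submodule.add_mem _ hu hv

theorem Ie_T {D : Deg3 F B} {x : B} (hx : x ∈ Ie D P K) : D.T x ∈ tr D K := by
  obtain ⟨k, hk, z, hz, rfl⟩ := Submodule.mem_sup.1 hx
  rw [map_add]
  refine Ideal.add_mem _ (mem_tr.2 ⟨k, hk, rfl⟩) ?_
  refine Submodule.smul_induction_on hz ?_ ?_
  · intro a ha b hb
    rw [map_smul, smul_eq_mul]
    exact Ideal.mul_mem_right _ _ ha
  · intro u v hu hv
    rw [map_add]
    exact Ideal.add_mem _ hu hv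

theorem Ie_QD {D : Deg3 F B} {n : ℕ} (h : TD n P K) : QD (Ce D P) (Ie D P K) where
  sm := D.smul_mul
  cc := fun x hx y hy => Ce_mul h.pp hx hy
  le := sup_le (h.le.trans le_sup_left) (Submodule.smul_le_right)
  ic := fun x hx y hy => Ie_mul h hx hy

theorem tr_e_smul {D : Deg3 F B} {z : B} (hz : z ∈ (tr D K) • (Ce D P)) :
    ∃ p ∈ (tr D K) • P, ∃ r : F, z = p + r • D.e := by
  refine Submodule.smul_induction_on hz ?_ ?_
  · intro a ha b hb
    obtain ⟨p, hp, r, rfl⟩ := mem_Ce.1 hb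
    refine ⟨a • p, Submodule.smul_mem_smul ha hp, a * r, ?_⟩
    rw [smul_add, smul_smul]
  · rintro u v ⟨p, hp, r, rfl⟩ ⟨q, hq, s, rfl⟩
    refine ⟨p + q, Submodule.add_mem _ hp hq, r + s, ?_⟩
    rw [add_smul]
    abel

/-- THE QUOTIENT STEP -/
theorem top (D : Deg3 F B) {n : ℕ} (hn : 3 ≤ n) (h : TD n P K) (hs : Star D P K)
    {J : Type u} [NonUnitalNonAssocCommRing J] [IsCommJordan J]
    (hnil : ∀ a : J, (fun x => a * x)^[n - 1] a = 0)
    {S : Type*} [NonUnitalNonAssocCommRing S] (π : S →ₙ+* J) (hπ : Function.Surjective π)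
    (f : S →+ B) (hf : ∀ a b, f (a * b) = f a * f b) (hP : ∀ s, f s ∈ P)
    (hk : ∀ s, π s = 0 → f s ∈ K)
    (E : ℕ → AddSubgroup J) (hE0 : E 0 = ⊤)
    (hEs : ∀ i, E (i + 1) = AddSubgroup.closure {x : J | ∃ a ∈ E i, ∃ b ∈ E i, x = a * b}) :
    ∀ s, π s ∈ E (n * Nat.clog 2 (n + 2) + (2 * n - 1)) →
      f s ∈ sat (2 * n.factorial) (K ⊔ (tr D K) • P) := by
  intro s hsE
  have hQ : QD (Ce D P) (Ie D P K) := Ie_QD h
  have hPC : P ≤ Ce D P := le_sup_left
  have hA : ∀ a ∈ tr D K, ∀ x ∈ Ce D P, a • x ∈ Ie D P K := fun a ha x hx =>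
    Submodule.mem_sup_right (Submodule.smul_mem_smul ha hx)
  have he : D.e ∈ Ce D P := mem_Ce.2 ⟨0, P.zero_mem, 1, by rw [one_smul, zero_add]⟩
  have hT : ∀ x ∈ Ie D P K, D.T x ∈ tr D K := fun x hx => Ie_T hx
  letI := qring hQ
  letI := qmod hA
  let D' : Deg3 (F ⧸ tr D K) (Qt (Ce D P) (Ie D P K)) := qdeg D hQ hA he hT
  let w : J → S := fun x => (hπ x).choose
  have hw : ∀ x, π (w x) = x := fun x => (hπ x).choose_spec
  have hkI : ∀ t t' : S, π t = π t' → f t - f t' ∈ Ie D P K := by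
    intro t t' ht
    rw [← map_sub]
    exact Submodule.mem_sup_left (hk _ (by rw [map_sub, ht, sub_self]))
  let g : J →+ Qt (Ce D P) (Ie D P K) :=
    { toFun := fun x => cl _ _ (f (w x)) (hPC (hP _))
      map_zero' := by
        refine (cl_zero _).2 ?_
        have h1 := hkI (w 0) 0 (by rw [hw, map_zero])
        rw [map_zero, sub_zero] at h1
        exact h1
      map_add' := by
        intro x y
        rw [cl_add]
        refine (cl_eq _ _).2 ?_
        rw [← map_add]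
        exact hkI _ _ (by rw [map_add, hw, hw, hw]) }
  have hg : ∀ a b, g (a * b) = g a * g b := by
    intro a b
    show cl _ _ (f (w (a * b))) _ = cl _ _ (f (w a) * f (w b)) _
    refine (cl_eq _ _).2 ?_
    rw [← hf]
    exact hkI _ _ (by rw [map_mul, hw, hw, hw])
  let H : Hom3 J (F ⧸ tr D K) (Qt (Ce D P) (Ie D P K)) := { D' with f := g, mul := hg }
  obtain ⟨k, hk1⟩ := H.D_tor hn hnil hE0 hEs (π s) hsE
  refine ⟨k, ?_⟩
  have h1 : ((2 * n.factorial) ^ k : ℕ) • f (w (π s)) ∈ Ie D P K := by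
    have h2 : ((2 * n.factorial) ^ k : ℕ) • g (π s) = 0 := hk1
    have h3 : ((2 * n.factorial) ^ k : ℕ) • g (π s) = g (((2 * n.factorial) ^ k : ℕ) • π s) := by
      rw [map_nsmul]
    rw [h3] at h2
    have h4 : f (w (((2 * n.factorial) ^ k : ℕ) • π s)) ∈ Ie D P K := (cl_zero _).1 h2
    have h5 := hkI (((2 * n.factorial) ^ k : ℕ) • w (π s)) (w (((2 * n.factorial) ^ k : ℕ) • π s))
      (by rw [map_nsmul, hw, hw])
    rw [map_nsmul] at h5
    have h6 := (Ie D P K).add_mem h5 h4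
    rw [sub_add_cancel] at h6
    exact h6
  have h2 : ((2 * n.factorial) ^ k : ℕ) • f s ∈ Ie D P K := by
    have h3 := hkI s (w (π s)) (by rw [hw])
    have h4 := (Ie D P K).add_mem ((Ie D P K).toAddSubgroup.nsmul_mem h3 ((2 * n.factorial) ^ k)) h1
    rw [smul_sub, sub_add_cancel] at h4
    exact h4
  obtain ⟨k0, hk0, z, hz, e⟩ := Submodule.mem_sup.1 h2
  obtain ⟨p, hp, r, rfl⟩ := tr_e_smul hz
  have hpP : p ∈ P := Submodule.smul_le_right hp
  have h3 : r • D.e ∈ P := by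
    have h4 : r • D.e = ((2 * n.factorial) ^ k : ℕ) • f s - k0 - p := by
      rw [← e]
      abel
    rw [h4]
    exact P.sub_mem (P.sub_mem (P.toAddSubgroup.nsmul_mem (hP s) _) (h.le hk0)) hpP
  have h4 := hs r h3
  rw [← e, ← add_assoc, add_right_comm]
  exact Submodule.add_mem_sup (K.add_mem hk0 h4) hp

end top

end Pool.Agent.H.MP_e16c79_al.TQ
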