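import Pool.Agent.H.MP_e16c79_al.TQ.Mul

/-!
# MP_e16c79_al: the scalars in a subalgebra of an algebra of degree three
-/

set_option autoImplicit false

namespace Pool.Agent.H.MP_e16c79_al.TQ

open Finset AL

section

variable {F B : Type*} [CommRing F] [NonUnitalNonAssocCommRing B] [Module F B]

/-- the scalars in `P` -/
def rho (D : Deg3 F B) (P : Submodule F B) : Ideal F :=
  P.comap (LinearMap.toSpanSingleton F B D.e)

theorem mem_rho {D : Deg3 F B} {P : Submodule F B} {r : F} : r ∈ rho D P ↔ r • D.e ∈ P := Iff.rfl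

/-- `P` with the scalars -/
def CC (D : Deg3 F B) (P : Submodule F B) : Submodule F B := P ⊔ Submodule.span F {D.e}

theorem mem_CC {D : Deg3 F B} {P : Submodule F B} {c : B} :
    c ∈ CC D P ↔ ∃ p ∈ P, ∃ a : F, c = p + a • D.e := by
  rw [CC, Submodule.mem_sup]
  constructor
  · rintro ⟨p, hp, z, hz, rfl⟩
    obtain ⟨a, rfl⟩ := Submodule.mem_span_singleton.1 hz
    exact ⟨p, hp, a, rfl⟩
  · rintro ⟨p, hp, a, rfl⟩
    exact ⟨p, hp, a • D.e, Submodule.mem_span_singleton.2 ⟨a, rfl⟩, rfl⟩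

theorem e_mem_CC (D : Deg3 F B) (P : Submodule F B) : D.e ∈ CC D P :=
  mem_CC.2 ⟨0, P.zero_mem, 1, by rw [one_smul, zero_add]⟩

theorem le_CC (D : Deg3 F B) (P : Submodule F B) : P ≤ CC D P := le_sup_left

theorem pw_smul_e (D : Deg3 F B) (r : F) (k : ℕ) : pw (r • D.e) k = r ^ (k + 1) • D.e := by
  induction k with
  | zero =>
    rw [zero_add, pow_one]
    rfl
  | succ k ih =>
    show (r • D.e) * pw (r • D.e) k = _
    rw [ih, D.smul_mul, D.one, ← mul_smul, ← pow_succ']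

variable (D : Deg3 F B) {n : ℕ} {P K : Submodule F B}

theorem mul_e_mem {Q : Submodule F B} {x : B} (hx : x ∈ Q) (a : F) : x * (a • D.e) ∈ Q := by
  rw [D.mul_smul', D.mul_one']
  exact Q.smul_mem a hx

theorem k_mul_C (h : TD n P K) {k c : B} (hk : k ∈ K) (hc : c ∈ CC D P) : k * c ∈ K := by
  obtain ⟨p, hp, a, rfl⟩ := mem_CC.1 hc
  rw [mul_add]
  exact K.add_mem (h.kp k hk p hp) (mul_e_mem D hk a)

theorem p_mul_C (h : TD n P K) {x c : B} (hx : x ∈ P) (hc : c ∈ CC D P) : x * c ∈ P := by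
  obtain ⟨p, hp, a, rfl⟩ := mem_CC.1 hc
  rw [mul_add]
  exact P.add_mem (h.pp x hx p hp) (mul_e_mem D hx a)

theorem c_mul_C (h : TD n P K) {x c : B} (hx : x ∈ CC D P) (hc : c ∈ CC D P) :
    x * c ∈ CC D P := by
  obtain ⟨p, hp, a, rfl⟩ := mem_CC.1 hx
  rw [add_mul, D.smul_mul, D.one]
  exact (CC D P).add_mem (le_CC D P (p_mul_C D h hp hc)) ((CC D P).smul_mem a hc)

/-- `K + I C` -/
def MI (D : Deg3 F B) (n : ℕ) (P K : Submodule F B) (I : Ideal F) : Submodule F B :=
  sat (2 * n.factorial) (K ⊔ I • CC D P)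

theorem mul_MI (h : TD n P K) {I I' : Ideal F} {x y : B} (hx : x ∈ MI D n P K I)
    (hy : y ∈ MI D n P K I') : x * y ∈ MI D n P K (I * I') := by
  have h0 : ∀ u ∈ I • CC D P, ∀ v ∈ I' • CC D P, u * v ∈ (I * I') • CC D P := by
    intro u hu v hv
    refine Submodule.smul_induction_on (p := fun u => u * v ∈ (I * I') • CC D P) hu ?_ ?_
    · intro r hr c hc
      refine Submodule.smul_induction_on
        (p := fun v => r • c * v ∈ (I * I') • CC D P) hv ?_ ?_
      · intro s hs d hd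
        have e : r • c * s • d = (r * s) • (c * d) := by
          rw [D.smul_mul, D.mul_smul', ← mul_smul]
        rw [e]
        exact Submodule.smul_mem_smul (Ideal.mul_mem_mul hr hs) (c_mul_C D h hc hd)
      · intro v w hv hw
        rw [mul_add]
        exact Submodule.add_mem _ hv hw
    · intro u w hu hw
      rw [add_mul]
      exact Submodule.add_mem _ hu hw
  have h1 : ∀ (I : Ideal F), I • CC D P ≤ CC D P := fun I => Submodule.smul_le_right
  obtain ⟨i, hi⟩ := hx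
  obtain ⟨j, hj⟩ := hy
  refine ⟨i + j, ?_⟩
  have e : ((2 * n.factorial) ^ (i + j)) • (x * y) =
      ((2 * n.factorial) ^ i) • x * ((2 * n.factorial) ^ j) • y := by
    rw [smul_mul_assoc, mul_smul_comm, ← mul_smul, ← pow_add]
  rw [e]
  obtain ⟨k, hk, u, hu, h2⟩ := Submodule.mem_sup.1 hi
  obtain ⟨k', hk', u', hu', h3⟩ := Submodule.mem_sup.1 hj
  rw [← h2, ← h3, add_mul, mul_add, mul_add]
  have a1 : k * k' ∈ K := k_mul_C D h hk (le_CC D P (h.le hk'))
  have a2 : k * u' ∈ K := k_mul_C D h hk (h1 _ hu')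
  have a3 : u * k' ∈ K := by
    rw [mul_comm]
    exact k_mul_C D h hk' (h1 _ hu)
  exact Submodule.add_mem _
    (Submodule.mem_sup_left (K.add_mem a1 a2))
    (Submodule.add_mem _ (Submodule.mem_sup_left a3) (Submodule.mem_sup_right (h0 u hu u' hu')))

theorem sat_le {N : ℕ} {Q : Submodule F B} (hQ : ∀ x : B, N • x ∈ Q → x ∈ Q) : sat N Q ≤ Q := by
  rintro x ⟨k, hk⟩
  induction k generalizing x with
  | zero =>
    rw [pow_zero, one_smul] at hk
    exact hk
  | succ k ih =>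
    refine hQ x (ih ?_)
    rw [← mul_smul, ← pow_succ]
    exact hk

theorem rho_C_le (h : TD n P K) : rho D P • CC D P ≤ P := by
  refine Submodule.smul_le.2 ?_
  intro r hr c hc
  have e : r • c = (r • D.e) * c := by rw [D.smul_mul, D.one]
  rw [e]
  exact p_mul_C D h (mem_rho.1 hr) hc

theorem rho_pow (hn : 3 ≤ n) (h : TD n P K) : rho D P ^ n ≤ rho D K := by
  refine ideal_pow ?_ ?_
  · intro x hx
    have h1 := h.nil _ (mem_rho.1 hx)
    rw [pw_smul_e, show n - 1 + 1 = n by omega] at h1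
    exact h1
  · intro x hx
    refine h.sk _ ?_
    have h1 : ((2 * n.factorial) • x) • D.e ∈ K := hx
    rwa [smul_assoc] at h1

theorem MI_le (hn : 3 ≤ n) (h : TD n P K) {i : ℕ} (hi : n ≤ i) :
    MI D n P K (rho D P ^ i) ≤ K := by
  refine (sat_mono _ (sup_le (le_refl K) ?_)).trans (sat_le h.sk)
  refine Submodule.smul_le.2 ?_
  intro r hr c hc
  have e : r • c = (r • D.e) * c := by rw [D.smul_mul, D.one]
  rw [e]
  exact k_mul_C D h (rho_pow D hn h (Ideal.pow_le_pow_right hi hr)) hc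

theorem scal (hn : 3 ≤ n) (h : TD n P K) : ∃ K1 : Submodule F B, TD n P K1 ∧ K ≤ K1 ∧
    Star D P K1 ∧ ∃ M : ℕ → Submodule F B, (∀ x ∈ K1, x ∈ M 1) ∧
      (∀ i j, ∀ x ∈ M i, ∀ y ∈ M j, x * y ∈ M (i + j)) ∧ ∀ i, n ≤ i → M i ≤ K := by
  have h0 : K ≤ MI D n P K (rho D P) := le_sup_left.trans (le_sat _ _)
  refine ⟨MI D n P K (rho D P), ⟨?_, h.pp, ?_, fun x hx => h0 (h.nil x hx), h.sp,
    fun x hx => sat_of hx⟩, h0, ?_, fun i => MI D n P K (rho D P ^ i), ?_, ?_, ?_⟩
  · exact (sat_mono _ (sup_le h.le (rho_C_le D h))).trans (sat_le h.sp)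
  · intro x hx y hy
    have h1 : y ∈ MI D n P K ⊤ := by
      refine le_sat _ _ (Submodule.mem_sup_right ?_)
      rw [Submodule.top_smul]
      exact le_CC D P hy
    have h2 := mul_MI D h hx h1
    rwa [Ideal.mul_top] at h2
  · intro r hr
    refine le_sat _ _ (Submodule.mem_sup_right ?_)
    exact Submodule.smul_mem_smul (mem_rho.2 hr) (e_mem_CC D P)
  · intro x hx
    show x ∈ MI D n P K (rho D P ^ 1)
    rw [pow_one]
    exact hx
  · intro i j x hx y hy
    have h1 := mul_MI D h hx hy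
    rwa [← pow_add] at h1
  · intro i hi
    exact MI_le D hn h hi

end

end Pool.Agent.H.MP_e16c79_al.TQ
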