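import Pool.Agent.H.MP_e16c79_al.TQ.Lay
import Pool.Agent.H.MP_e16c79_al.TQ.Sca
import Pool.Agent.H.MP_e16c79_al.TQ.Quo
import Pool.Agent.H.MP_e16c79_al.IS.Chain

/-!
# MP_e16c79_al: the derived series of a quotient of a subalgebra of an algebra of degree three
-/

set_option autoImplicit false

namespace Pool.Agent.H.MP_e16c79_al.TQ

open AL IS

universe u v

theorem Dr_anti {R : Type*} [NonUnitalNonAssocCommRing R] (i j : ℕ) :
    Dr (⊤ : AddSubgroup R) (i + j) ≤ Dr (⊤ : AddSubgroup R) i := by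
  rw [add_comm, Dr_add]
  exact Dr_mono le_top i

section

variable {F B : Type*} [CommRing F] [NonUnitalNonAssocCommRing B] [Module F B]

theorem step {S : Type v} [NonUnitalNonAssocCommRing S] (f : S →+ B)
    (hf : ∀ a b, f (a * b) = f a * f b) {i : ℕ} {X Y : Submodule F B}
    (hX : ∀ s ∈ Dr (⊤ : AddSubgroup S) i, f s ∈ X) (hXY : ∀ x ∈ X, ∀ y ∈ X, x * y ∈ Y) :
    ∀ s ∈ Dr (⊤ : AddSubgroup S) (i + 1), f s ∈ Y := by
  intro s hs
  refine AddSubgroup.closure_induction (p := fun s _ => f s ∈ Y) ?_ ?_ ?_ ?_ hs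
  · rintro y ⟨a, ha, b, hb, rfl⟩
    rw [hf]
    exact hXY _ (hX a ha) _ (hX b hb)
  · rw [map_zero]
    exact Y.zero_mem
  · intro y y' _ _ e1 e2
    rw [map_add]
    exact Y.add_mem e1 e2
  · intro y _ e1
    rw [map_neg]
    exact Y.neg_mem e1

theorem pi_Dr {J : Type u} [NonUnitalNonAssocCommRing J] {S : Type v}
    [NonUnitalNonAssocCommRing S] (π : S →ₙ+* J) {E : ℕ → AddSubgroup J} (hE0 : E 0 = ⊤)
    (hEs : ∀ i, E (i + 1) = AddSubgroup.closure {x : J | ∃ a ∈ E i, ∃ b ∈ E i, x = a * b}) :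
    ∀ i, ∀ s ∈ Dr (⊤ : AddSubgroup S) i, π s ∈ E i := by
  intro i
  induction i with
  | zero =>
    intro s _
    rw [hE0]
    exact AddSubgroup.mem_top _
  | succ i ih =>
    intro s hs
    refine AddSubgroup.closure_induction (p := fun s _ => π s ∈ E (i + 1)) ?_ ?_ ?_ ?_ hs
    · rintro y ⟨a, ha, b, hb, rfl⟩
      rw [map_mul, hEs]
      exact AddSubgroup.subset_closure ⟨_, ih a ha, _, ih b hb, rfl⟩
    · rw [map_zero]
      exact AddSubgroup.zero_mem _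
    · intro y y' _ _ e1 e2
      rw [map_add]
      exact AddSubgroup.add_mem _ e1 e2
    · intro y _ e1
      rw [map_neg]
      exact AddSubgroup.neg_mem _ e1

theorem Dr_pi {J : Type u} [NonUnitalNonAssocCommRing J] {S : Type v}
    [NonUnitalNonAssocCommRing S] (π : S →ₙ+* J) (hπ : Function.Surjective π)
    {E : ℕ → AddSubgroup J}
    (hEs : ∀ i, E (i + 1) = AddSubgroup.closure {x : J | ∃ a ∈ E i, ∃ b ∈ E i, x = a * b}) :
    ∀ i, ∀ x ∈ E i, ∃ s ∈ Dr (⊤ : AddSubgroup S) i, π s = x := by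
  intro i
  induction i with
  | zero =>
    intro x _
    obtain ⟨s, hs⟩ := hπ x
    exact ⟨s, AddSubgroup.mem_top _, hs⟩
  | succ i ih =>
    intro x hx
    rw [hEs] at hx
    refine AddSubgroup.closure_induction
      (p := fun y _ => ∃ s ∈ Dr (⊤ : AddSubgroup S) (i + 1), π s = y) ?_ ?_ ?_ ?_ hx
    · rintro y ⟨a, ha, b, hb, rfl⟩
      obtain ⟨s, hs, e1⟩ := ih a ha
      obtain ⟨t, ht, e2⟩ := ih b hb
      exact ⟨s * t, AddSubgroup.subset_closure ⟨s, hs, t, ht, rfl⟩, by rw [map_mul, e1, e2]⟩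
    · exact ⟨0, AddSubgroup.zero_mem _, by rw [map_zero]⟩
    · rintro y y' _ _ ⟨s, hs, e1⟩ ⟨t, ht, e2⟩
      exact ⟨s + t, AddSubgroup.add_mem _ hs ht, by rw [map_add, e1, e2]⟩
    · rintro y _ ⟨s, hs, e1⟩
      exact ⟨-s, AddSubgroup.neg_mem _ hs, by rw [map_neg, e1]⟩

/-- the number of steps -/
def qq (n : ℕ) : ℕ :=
  n * Nat.clog 2 (n + 2) + (2 * n - 1) + 1 + Nat.clog 2 (n + 1) + Nat.clog 2 n

/-- Let `J` be a Jordan ring with `x ^ n = 0`, `π : S → J` surjective and `f : S → B` a homomorphism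
to an algebra of degree three. Then `f` maps the derived series of `S` into any saturated ideal `K`
of a saturated subalgebra `P` with `f S ⊆ P`, `f (ker π) ⊆ K` and `x ^ n ∈ K` for `x ∈ P`. -/
theorem core (D : Deg3 F B) {n : ℕ} (hn : 3 ≤ n) {P K : Submodule F B} (h : TD n P K)
    {J : Type u} [NonUnitalNonAssocCommRing J] [IsCommJordan J]
    (hnil : ∀ a : J, (fun x => a * x)^[n - 1] a = 0)
    {S : Type v} [NonUnitalNonAssocCommRing S] (π : S →ₙ+* J) (hπ : Function.Surjective π)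
    (f : S →+ B) (hf : ∀ a b, f (a * b) = f a * f b) (hP : ∀ s, f s ∈ P)
    (hk : ∀ s, π s = 0 → f s ∈ K) (E : ℕ → AddSubgroup J) (hE0 : E 0 = ⊤)
    (hEs : ∀ i, E (i + 1) = AddSubgroup.closure {x : J | ∃ a ∈ E i, ∃ b ∈ E i, x = a * b}) :
    ∀ s ∈ Dr (⊤ : AddSubgroup S) (qq n), f s ∈ K := by
  obtain ⟨K1, h1, hKK, hs, M, hM1, hMm, hMn⟩ := scal D hn h
  have a0 : ∀ s ∈ Dr (⊤ : AddSubgroup S) (n * Nat.clog 2 (n + 2) + (2 * n - 1)),
      f s ∈ sat (2 * n.factorial) (K1 ⊔ (tr D K1) • P) := fun s hs' =>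
    top D hn h1 hs hnil π hπ f hf hP (fun s hs0 => hKK (hk s hs0)) E hE0 hEs s
      (pi_Dr π hE0 hEs _ s hs')
  have a1 : ∀ j, ∀ s ∈ Dr (⊤ : AddSubgroup S) (n * Nat.clog 2 (n + 2) + (2 * n - 1) + 1 + j),
      f s ∈ LL D n P K1 (2 ^ j - 1) := by
    intro j
    induction j with
    | zero => exact step f hf a0 h1.LL_first
    | succ j ih =>
      have e : 2 ^ (j + 1) - 1 = 2 ^ j - 1 + (2 ^ j - 1) + 1 := by
        have := Nat.one_le_two_pow (n := j)
        rw [pow_succ]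
        omega
      rw [e]
      exact step f hf ih (h1.LL_mul hn hs _ _)
  have a2 : ∀ s ∈ Dr (⊤ : AddSubgroup S) (n * Nat.clog 2 (n + 2) + (2 * n - 1) + 1 +
      Nat.clog 2 (n + 1)), f s ∈ K1 := fun s hs' => by
    refine h1.LL_last hn hs ?_ (a1 _ s hs')
    have := Nat.le_pow_clog one_lt_two (n + 1)
    omega
  have a3 : ∀ j, ∀ s ∈ Dr (⊤ : AddSubgroup S) (n * Nat.clog 2 (n + 2) + (2 * n - 1) + 1 +
      Nat.clog 2 (n + 1) + j), f s ∈ M (2 ^ j) := by
    intro j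
    induction j with
    | zero => exact fun s hs' => hM1 _ (a2 s hs')
    | succ j ih =>
      rw [pow_succ, mul_two]
      exact step f hf ih (hMm _ _)
  exact fun s hs' => hMn _ (Nat.le_pow_clog one_lt_two n) (a3 _ s hs')

theorem qq_le {n : ℕ} (hn : 3 ≤ n) : qq n ≤ 27 + (n - 4) * (n + 9) := by
  unfold qq
  rcases Nat.lt_or_ge n 5 with h | h
  · have h4 : n = 3 ∨ n = 4 := by omega
    rcases h4 with rfl | rfl
    · have e1 : Nat.clog 2 (3 + 2) ≤ 3 := Nat.clog_le_of_le_pow (by norm_num)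
      have e2 : Nat.clog 2 (3 + 1) ≤ 2 := Nat.clog_le_of_le_pow (by norm_num)
      have e3 : Nat.clog 2 3 ≤ 2 := Nat.clog_le_of_le_pow (by norm_num)
      omega
    · have e1 : Nat.clog 2 (4 + 2) ≤ 3 := Nat.clog_le_of_le_pow (by norm_num)
      have e2 : Nat.clog 2 (4 + 1) ≤ 3 := Nat.clog_le_of_le_pow (by norm_num)
      have e3 : Nat.clog 2 4 ≤ 2 := Nat.clog_le_of_le_pow (by norm_num)
      omega
  · obtain ⟨j, rfl⟩ : ∃ j, n = j + 5 := ⟨n - 5, by omega⟩
    have h6 : j + 5 + 2 ≤ 2 ^ (j + 4) := by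
      clear hn h
      induction j with
      | zero => norm_num
      | succ j ih =>
        rw [show j + 1 + 4 = j + 4 + 1 by omega, pow_succ]
        omega
    have e1 : Nat.clog 2 (j + 5 + 2) ≤ j + 4 := Nat.clog_le_of_le_pow h6
    have e2 : Nat.clog 2 (j + 5 + 1) ≤ j + 4 := Nat.clog_le_of_le_pow (by omega)
    have e3 : Nat.clog 2 (j + 5) ≤ j + 4 := Nat.clog_le_of_le_pow (by omega)
    have e4 : (j + 5) * Nat.clog 2 (j + 5 + 2) ≤ (j + 5) * (j + 4) := Nat.mul_le_mul_left _ e1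
    rw [show j + 5 - 4 = j + 1 by omega]
    have h4 : 2 * (j + 5) - 1 = 2 * j + 9 := by omega
    rw [h4]
    nlinarith

end

end Pool.Agent.H.MP_e16c79_al.TQ
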